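import Pool.Agent.H369Z.Hoh.Defs

set_option autoImplicit false

open Finset Filter Topology ArithmeticFunction

namespace Pool.Agent.H78Z.Hoh

open Pool.Agent.H369Z.Hoh

theorem vM_summable : Summable fun n : ℕ => vonMangoldt n / (n : ℝ) ^ 2 := by
  have h1 : Summable fun n : ℕ => 2 * (1 / (n : ℝ) ^ (3 / 2 : ℝ)) :=
    (Real.summable_one_div_nat_rpow.2 (by norm_num)).mul_left 2
  refine Summable.of_nonneg_of_le (fun n => by positivity) (fun n => ?_) h1
  rcases Nat.eq_zero_or_pos n with rfl | hn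
  · simp
  have hn' : (0 : ℝ) < n := by exact_mod_cast hn
  have h2 : vonMangoldt n ≤ (n : ℝ) ^ (1 / 2 : ℝ) / (1 / 2) :=
    vonMangoldt_le_log.trans (Real.log_le_rpow_div hn'.le (by norm_num))
  have h3 : (n : ℝ) ^ 2 = (n : ℝ) ^ (1 / 2 : ℝ) * (n : ℝ) ^ (3 / 2 : ℝ) := by
    rw [← Real.rpow_add hn']; norm_num
  have h4 : 0 < (n : ℝ) ^ (1 / 2 : ℝ) := by positivity
  have h5 : 0 < (n : ℝ) ^ (3 / 2 : ℝ) := by positivity
  rw [h3, div_le_iff₀ (by positivity)]
  calc vonMangoldt n ≤ (n : ℝ) ^ (1 / 2 : ℝ) / (1 / 2) := h2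
    _ = _ := by field_simp

/-- the pointwise splitting of the Gaussian weight -/
theorem term_le (y h T : ℝ) (hy : 1 ≤ y) (hh : 0 < h) (hhy : h ≤ y) (hT : 1 ≤ T)
    (hTh : T * (h / (8 * y)) = 2 * Real.log y) (n : ℕ) :
    vonMangoldt n / (n : ℝ) * Real.exp (-(T ^ 2 * (Real.log (y + h / 2) - Real.log n) ^ 2 / 4)) ≤
      (if n ∈ Ioc ⌊y⌋₊ ⌊y + h⌋₊ then vonMangoldt n / y else 0) +
        Real.exp (-(Real.log y ^ 2 / 2)) * Real.exp 2 * (2 * y) * (vonMangoldt n / (n : ℝ) ^ 2) := by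
  have hΛ : 0 ≤ vonMangoldt n := vonMangoldt_nonneg
  rcases Nat.eq_zero_or_pos n with rfl | hn
  · simp
  have hn' : (0 : ℝ) < n := by exact_mod_cast hn
  have hy0 : 0 < y := by linarith
  set x := y + h / 2 with hx
  have hx0 : 0 < x := by positivity
  set a := Real.log x - Real.log n with ha
  set δ := h / (8 * y) with hδ
  have hδ0 : 0 < δ := by positivity
  have hδ1 : δ ≤ 1 / 8 := by rw [hδ, div_le_iff₀ (by positivity)]; linarith
  have hδy : δ * y = h / 8 := by rw [hδ]; field_simp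
  have hea : Real.exp a = x / n := by rw [ha, Real.exp_sub, Real.exp_log hx0, Real.exp_log hn']
  by_cases hin : |a| ≤ δ
  · have h1 : Real.exp a ≤ 1 + 2 * δ := by
      have h2 : Real.exp a ≤ Real.exp δ := Real.exp_le_exp.2 (le_of_abs_le hin)
      have h3 : 1 - δ ≤ Real.exp (-δ) := by linarith [Real.add_one_le_exp (-δ)]
      have h4 : Real.exp δ * Real.exp (-δ) = 1 := by rw [← Real.exp_add]; simp
      nlinarith [Real.exp_pos δ]
    have h2 : 1 - δ ≤ Real.exp a := by linarith [Real.add_one_le_exp a, neg_le_of_abs_le hin]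
    rw [hea, div_le_iff₀ hn'] at h1
    rw [hea, le_div_iff₀ hn'] at h2
    have hlo : y < n := by
      by_contra hc
      have : (n : ℝ) ≤ y := not_lt.1 hc
      nlinarith
    have hhi : (n : ℝ) ≤ y + h := by
      by_contra hc
      have : y + h < (n : ℝ) := not_le.1 hc
      nlinarith
    have hmem : n ∈ Ioc ⌊y⌋₊ ⌊y + h⌋₊ := by
      rw [mem_Ioc]
      exact ⟨(Nat.floor_lt hy0.le).2 hlo, Nat.le_floor hhi⟩
    rw [if_pos hmem]
    have h5 : vonMangoldt n / (n : ℝ) * Real.exp (-(T ^ 2 * a ^ 2 / 4)) ≤ vonMangoldt n / y := by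
      calc vonMangoldt n / (n : ℝ) * Real.exp (-(T ^ 2 * a ^ 2 / 4))
          ≤ vonMangoldt n / (n : ℝ) * 1 := by
            gcongr
            exact Real.exp_le_one_iff.2 (by nlinarith [sq_nonneg (T * a)])
        _ ≤ vonMangoldt n / y := by rw [mul_one]; gcongr
    have h6 : 0 ≤ Real.exp (-(Real.log y ^ 2 / 2)) * Real.exp 2 * (2 * y) *
        (vonMangoldt n / (n : ℝ) ^ 2) := by positivity
    linarith
  · have hout : δ < |a| := not_le.1 hin
    have hL : 0 ≤ Real.log y := Real.log_nonneg hy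
    have h1 : (2 * Real.log y) ^ 2 ≤ T ^ 2 * a ^ 2 := by
      rw [← hTh, mul_pow, ← sq_abs a]
      gcongr
    have h2 : a ^ 2 ≤ T ^ 2 * a ^ 2 := le_mul_of_one_le_left (sq_nonneg a) (one_le_pow₀ hT)
    have h3 : -(T ^ 2 * a ^ 2 / 4) ≤ -(Real.log y ^ 2 / 2) + 2 + a := by
      nlinarith [sq_nonneg (a + 4)]
    have h4 : Real.exp (-(T ^ 2 * a ^ 2 / 4)) ≤
        Real.exp (-(Real.log y ^ 2 / 2)) * Real.exp 2 * (2 * y / n) := by
      refine (Real.exp_le_exp.2 h3).trans ?_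
      rw [Real.exp_add, Real.exp_add, hea]
      gcongr
      linarith
    have h5 : (0 : ℝ) ≤ if n ∈ Ioc ⌊y⌋₊ ⌊y + h⌋₊ then vonMangoldt n / y else 0 := by
      split_ifs <;> positivity
    have h6 : vonMangoldt n / (n : ℝ) * Real.exp (-(T ^ 2 * a ^ 2 / 4)) ≤
        Real.exp (-(Real.log y ^ 2 / 2)) * Real.exp 2 * (2 * y) * (vonMangoldt n / (n : ℝ) ^ 2) := by
      calc vonMangoldt n / (n : ℝ) * Real.exp (-(T ^ 2 * a ^ 2 / 4))
          ≤ vonMangoldt n / (n : ℝ) *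
            (Real.exp (-(Real.log y ^ 2 / 2)) * Real.exp 2 * (2 * y / n)) := by gcongr
        _ = _ := by field_simp
    linarith

theorem tsum_le (y h T : ℝ) (hy : 1 ≤ y) (hh : 0 < h) (hhy : h ≤ y) (hT : 1 ≤ T)
    (hTh : T * (h / (8 * y)) = 2 * Real.log y) :
    ∑' n : ℕ, vonMangoldt n / (n : ℝ) *
        Real.exp (-(T ^ 2 * (Real.log (y + h / 2) - Real.log n) ^ 2 / 4)) ≤
      (∑ n ∈ Ioc ⌊y⌋₊ ⌊y + h⌋₊, vonMangoldt n) / y +
        Real.exp (-(Real.log y ^ 2 / 2)) * Real.exp 2 * (2 * y) *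
          ∑' n : ℕ, vonMangoldt n / (n : ℝ) ^ 2 := by
  have h1 : HasSum (fun n : ℕ => if n ∈ Ioc ⌊y⌋₊ ⌊y + h⌋₊ then vonMangoldt n / y else 0)
      ((∑ n ∈ Ioc ⌊y⌋₊ ⌊y + h⌋₊, vonMangoldt n) / y) := by
    have := hasSum_sum_of_ne_finset_zero (L := SummationFilter.unconditional ℕ)
      (f := fun n : ℕ => if n ∈ Ioc ⌊y⌋₊ ⌊y + h⌋₊ then vonMangoldt n / y else 0)
      (s := Ioc ⌊y⌋₊ ⌊y + h⌋₊) (fun n hn => if_neg hn)
    rwa [Finset.sum_ite_of_true (fun n hn => hn), ← Finset.sum_div] at this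
  have h2 := h1.add (vM_summable.hasSum.mul_left
    (Real.exp (-(Real.log y ^ 2 / 2)) * Real.exp 2 * (2 * y)))
  rw [← h2.tsum_eq]
  refine Summable.tsum_le_tsum (term_le y h T hy hh hhy hT hTh) ?_ h2.summable
  exact Summable.of_nonneg_of_le (fun n => by positivity) (term_le y h T hy hh hhy hT hTh)
    h2.summable

theorem sum_vM_le (y h : ℝ) (hy : 1 ≤ y) (hhy : h ≤ y) :
    ∑ n ∈ Ioc ⌊y⌋₊ ⌊y + h⌋₊, vonMangoldt n ≤
      (((Ioc ⌊y⌋₊ ⌊y + h⌋₊).filter Nat.Prime).card : ℝ) * Real.log (2 * y) +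
        2 * √(2 * y) * Real.log (2 * y) := by
  rw [← Finset.sum_filter_add_sum_filter_not _ Nat.Prime]
  refine add_le_add ?_ ?_
  · rw [← nsmul_eq_mul]
    refine Finset.sum_le_card_nsmul _ _ _ fun n hn => ?_
    rw [mem_filter, mem_Ioc] at hn
    refine vonMangoldt_le_log.trans (Real.log_le_log (by exact_mod_cast hn.2.pos) ?_)
    have h1 : ⌊y + h⌋₊ ≤ ⌊2 * y⌋₊ := Nat.floor_le_floor (by linarith)
    have h2 : (n : ℝ) ≤ (⌊2 * y⌋₊ : ℝ) := by exact_mod_cast hn.1.2.trans h1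
    exact h2.trans (Nat.floor_le (by linarith))
  · refine le_trans ?_ (Chebyshev.psi_sub_theta_le (x := 2 * y) (by linarith))
    rw [Chebyshev.psi_sub_theta_eq_sum_not_prime]
    refine Finset.sum_le_sum_of_subset_of_nonneg (Finset.filter_subset_filter _ ?_)
      fun _ _ _ => vonMangoldt_nonneg
    exact Ioc_subset_Ioc (Nat.zero_le _) (Nat.floor_le_floor (by linarith))

theorem hoh (h : S_MAIN) : S_HOH := by
  obtain ⟨u, hu, hmain⟩ := h
  have hu0 : 0 < u := by linarith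
  have hinv : 1 / (2 * u) ≤ 1 / 10 := one_div_le_one_div_of_le (by norm_num) (by linarith)
  have hinv0 : 0 < 1 / (2 * u) := by positivity
  refine ⟨1 - 1 / (2 * u), by linarith, by linarith, fun θ hθ hθ1 => ?_⟩
  set S : ℝ := ∑' n : ℕ, vonMangoldt n / (n : ℝ) ^ 2 with hS
  have hS0 : 0 ≤ S := tsum_nonneg fun n => by positivity
  have hX : Tendsto (fun y : ℝ => Real.log (y + y ^ θ / 2)) atTop atTop := by
    refine Real.tendsto_log_atTop.comp (tendsto_atTop_mono' _ ?_ tendsto_id)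
    filter_upwards [eventually_ge_atTop (0 : ℝ)] with y hy
    have : 0 ≤ y ^ θ := Real.rpow_nonneg hy _
    simp only [id]; linarith
  have e1 := (isLittleO_log_rpow_atTop hinv0).bound (by norm_num : (0 : ℝ) < 1 / 16)
  have e2 := (isLittleO_log_rpow_rpow_atTop 2 (by norm_num : (0 : ℝ) < 2 / 5)).bound
    (by norm_num : (0 : ℝ) < 1 / 8000)
  have e3 : ∀ᶠ y : ℝ in atTop, 32 * Real.exp 2 * S * Real.exp (-Real.log y) ≤ 1 / 40 := by
    have := (Real.tendsto_exp_neg_atTop_nhds_zero.comp Real.tendsto_log_atTop).const_mul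
      (32 * Real.exp 2 * S)
    rw [mul_zero] at this
    exact this.eventually (ge_mem_nhds (by norm_num))
  filter_upwards [hX.eventually hmain, e1, e2, e3, eventually_ge_atTop (2 : ℝ),
    Real.tendsto_log_atTop.eventually (eventually_ge_atTop (2560 : ℝ))] with y hm h1 h2 h3 hy hL
  set L := Real.log y with hLdef
  have hy0 : 0 < y := by linarith
  have hy1 : 1 ≤ y := by linarith
  have hL0 : 0 < L := by linarith
  set h := y ^ θ with hh
  have hh0 : 0 < h := by positivity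
  have hhy : h ≤ y := by
    calc y ^ θ ≤ y ^ (1 : ℝ) := Real.rpow_le_rpow_of_exponent_le hy1 hθ1.le
      _ = y := Real.rpow_one y
  set w := y ^ (1 - θ) with hw
  have hw1 : 1 ≤ w := Real.one_le_rpow hy1 (by linarith)
  have hwh : w * h = y := by rw [hw, hh, ← Real.rpow_add hy0]; simp
  set T := 16 * w * L with hT
  have hT1 : 1 ≤ T := by nlinarith
  have hTh : T * (h / (8 * y)) = 2 * Real.log y := by
    rw [hT, ← hLdef]
    field_simp
    nlinarith
  rw [Real.norm_of_nonneg hL0.le, Real.norm_of_nonneg (by positivity)] at h1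
  rw [Real.norm_of_nonneg (by positivity), Real.norm_of_nonneg (by positivity),
    Real.rpow_two] at h2
  have hTle : T ≤ Real.exp (Real.log (y + h / 2) / u) := by
    have h4 : w ≤ y ^ (1 / (2 * u)) := Real.rpow_le_rpow_of_exponent_le hy1 (by linarith)
    have h5 : y ^ (1 / (2 * u)) * y ^ (1 / (2 * u)) = Real.exp (L / u) := by
      rw [← Real.rpow_add hy0, Real.rpow_def_of_pos hy0, ← hLdef]
      congr 1
      field_simp
      ring
    have h6 : Real.exp (L / u) ≤ Real.exp (Real.log (y + h / 2) / u) := by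
      apply Real.exp_le_exp.2
      gcongr
      exact Real.log_le_log hy0 (by linarith)
    have h7 : 0 < y ^ (1 / (2 * u)) := by positivity
    calc T = w * (16 * L) := by rw [hT]; ring
      _ ≤ y ^ (1 / (2 * u)) * y ^ (1 / (2 * u)) := by gcongr; linarith
      _ ≤ _ := h5 ▸ h6
  have h8 := (hm T hT1 hTle).trans (mul_le_mul_of_nonneg_left (tsum_le y h T hy1 hh0 hhy hT1 hTh)
    (by linarith))
  rw [← hS, ← hLdef, mul_add] at h8
  set Q := ∑ n ∈ Ioc ⌊y⌋₊ ⌊y + h⌋₊, vonMangoldt n with hQ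
  have h9 : T * (Real.exp (-(L ^ 2 / 2)) * Real.exp 2 * (2 * y) * S) ≤ 1 / 40 := by
    refine le_trans ?_ h3
    have hye : y = Real.exp L := (Real.exp_log hy0).symm
    have hLy : L ≤ y := by rw [hye]; linarith [Real.add_one_le_exp L, Real.log_exp L]
    have hwy : w ≤ y := by nlinarith [Real.one_le_rpow hy1 (by linarith : (0 : ℝ) ≤ θ)]
    have h10 : y * y * y * Real.exp (-(L ^ 2 / 2)) ≤ Real.exp (-L) := by
      rw [hye, ← Real.exp_add, ← Real.exp_add, ← Real.exp_add]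
      apply Real.exp_le_exp.2
      nlinarith
    calc T * (Real.exp (-(L ^ 2 / 2)) * Real.exp 2 * (2 * y) * S)
        = 32 * Real.exp 2 * S * (w * L * y * Real.exp (-(L ^ 2 / 2))) := by rw [hT]; ring
      _ ≤ 32 * Real.exp 2 * S * (y * y * y * Real.exp (-(L ^ 2 / 2))) := by gcongr
      _ ≤ _ := by gcongr
  have h11 : h / (640 * L) ≤ Q := by
    have h12 : T * (Q / y) = 16 * L * Q / h := by
      rw [hT, ← hwh]; field_simp
    have h13 : 1 / 40 ≤ 16 * L * Q / h := by linarith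
    rw [le_div_iff₀ hh0] at h13
    rw [div_le_iff₀ (by positivity)]
    linarith
  have h14 := sum_vM_le y h hy1 hhy
  rw [← hQ] at h14
  set N : ℝ := (((Ioc ⌊y⌋₊ ⌊y + h⌋₊).filter Nat.Prime).card : ℝ) with hN
  have hN0 : 0 ≤ N := by positivity
  have hl2 : Real.log (2 * y) ≤ 2 * L := by
    rw [Real.log_mul (by norm_num) hy0.ne', ← hLdef]
    linarith [Real.log_le_sub_one_of_pos (by norm_num : (0 : ℝ) < 2)]
  have hsq : √(2 * y) ≤ 3 / 2 * y ^ (1 / 2 : ℝ) := by
    rw [Real.sqrt_le_left (by positivity), mul_pow, ← Real.sqrt_eq_rpow, Real.sq_sqrt hy0.le]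
    linarith
  have hsm : y ^ (1 / 2 : ℝ) * y ^ (2 / 5 : ℝ) ≤ h := by
    rw [← Real.rpow_add hy0]
    exact Real.rpow_le_rpow_of_exponent_le hy1 (by linarith)
  have hr0 : 0 < y ^ (1 / 2 : ℝ) := by positivity
  have h15 : 2 * √(2 * y) * Real.log (2 * y) ≤ h / (1280 * L) := by
    have hl0 : 0 ≤ Real.log (2 * y) := Real.log_nonneg (by linarith)
    calc 2 * √(2 * y) * Real.log (2 * y) ≤ 2 * (3 / 2 * y ^ (1 / 2 : ℝ)) * (2 * L) := by gcongr
      _ ≤ h / (1280 * L) := by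
        rw [le_div_iff₀ (by positivity)]
        nlinarith
  have h16 : h / (1280 * L) ≤ N * (2 * L) := by
    have h17 : h / (640 * L) = h / (1280 * L) + h / (1280 * L) := by field_simp; ring
    have h18 : N * Real.log (2 * y) ≤ N * (2 * L) := by gcongr
    linarith
  rw [div_le_iff₀ (by positivity)] at h16 ⊢
  have h19 : N * (2 * L) * (1280 * L) ≤ N * L ^ 3 := by
    have : 2 * L * (1280 * L) ≤ L ^ 3 := by nlinarith [sq_nonneg L]
    nlinarith
  linarith

end Pool.Agent.H78Z.Hoh
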